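import Pool.Agent.U738.KV.CParts

/-!
# The Künneth standard conjecture and the class in the Grothendieck group of varieties

Let `k` be algebraically closed, let `𝒱` be a class of smooth proper varieties over `k` closed under
products and `W` a Weil cohomology theory on it with coefficients in a field `K`. Algebraic maps
`H(X) → H(Y)` are the `K`-linear combinations of the maps given by algebraic cycles of codimension
`dim X` on `X × Y`. For fixed `V` and a fixed set `S` of degrees the following spaces are additive
functors of the Chow motive of `Z`: the restrictions to `⊕_{j ∈ S} H^j(V)` of the algebraic maps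
`H(V) → H(Z)`, and the algebraic maps `H(V) → H(Z)` which vanish on `H^j(V)` for `j ∉ S`. So their
dimensions `resRank` and `onlyRank` extend to additive invariants of all schemes over `k` (Gillet-Soulé,
Guillén-Navarro Aznar, Bondarko), which vanish on the schemes of dimension `m` if `2 m < i` for all
`i ∈ S`. This is the hypothesis `IsMotivicS W`. Nothing else is assumed about `W` (no Lefschetz theorem, no
purity, homological and numerical equivalence may be different).

Then `onlyRank ≤ resRank`, with equality for all `V` if the projector of `H(Z)` onto `⊕_{j ∈ S} H^j(Z)` is
algebraic, and the equality for `V = Z` implies this. Both sides are additive in `Z`, hence: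

1. For every degree `i` the component `π_i` of `X` is algebraic if and only if the class `[X]` in
   `K₀(Var_k)` lies in the subgroup generated by the classes `[Y]` of the varieties with algebraic `π_i` and
   the classes of all schemes of dimension less than `i / 2`.
2. `C(X)` holds if and only if `[X]` lies in the subgroup generated by the `[Y]` for which `π_i` is
   algebraic for all `i > n = dim X` and the classes of all schemes of dimension at most `n / 2`.
3. If `X` and `X'` have the same dimension `n` and are isomorphic outside closed subsets of dimension at
   most `m`, then `C(X)` and `C(X')` are equivalent, if `2 m ≤ n`, or if the classes of all schemes of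
   dimension at most `m` lie in the subgroup of 2. The latter is known if `2 m ≤ n + 2` and resolution of
   singularities is known in dimension at most `m` (since `π_0`, `π_1` and their duals are algebraic), so
   in characteristic zero and for `m ≤ 3`. For `m = n - 1`: `C(X)` is invariant under birational maps for
   `n ≤ 4`.
4. If the classes of the schemes of dimension at most `2` are generated by varieties with the Künneth
   conjecture (known: curves and surfaces) and `X` has an open subscheme `U` with complement of dimension
   at most `m`, `m` as in 3, which is built (by products, isomorphisms, and two out of three for a closed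
   subscheme and its open complement) from schemes of dimension at most `2`, varieties with `C`, affine
   schemes of any dimension given by polynomials with at most two terms over `k`-algebras of dimension at
   most `2`, and affine schemes with a grading of complexity at most `2`, then `C(X)` holds.
-/

set_option autoImplicit false

open CategoryTheory AlgebraicGeometry Pool.Agent.Y116.UV

universe v

namespace Pool.Agent.Results.MP_a60482_ag.ClassesKunneth

open Pool.Agent.H914 Pool.Agent.H914.VarClass Pool.Agent.H914.VarClass.Obj
  Pool.Agent.H914.WeilCohomology Pool.Agent.U738.KV

/-- **The Künneth standard conjecture and the class in `K₀(Var_k)`.** -/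
theorem result {k : Type} [Field k] [IsAlgClosed k] {𝒱 : VarClass k} {ops : CycleOps 𝒱}
    (W : WeilCohomology.{0, v} ops) (hW : IsMotivicS W) :
    -- one component
    (∀ (X : 𝒱.Obj) (i : ℕ), BlockStd W X {i} ↔
      ClassIn ({c | ∃ Y : 𝒱.Obj, BlockStd W Y {i} ∧ c = sch Y} ∪ smallSet k i) (sch X)) ∧
    -- all components
    (∀ X : 𝒱.Obj, KunnethC W X ↔ InGenC W X.dim (sch X)) ∧
    (∀ n m : ℕ, 2 * m ≤ n → CoveredC W n m) ∧
    -- varieties which are isomorphic outside small closed subsets
    (∀ (X X' : 𝒱.Obj) (m : ℕ), X.dim = X'.dim → CoveredC W X.dim m →
      ∀ (Z Z' U U' : Sch k) (i : Z ⟶ sch X) (j : U ⟶ sch X) (i' : Z' ⟶ sch X')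
        (j' : U' ⟶ sch X'), IsTriple i j → IsTriple i' j' → Nonempty (U ≅ U') →
      topologicalKrullDim Z.left ≤ m → topologicalKrullDim Z'.left ≤ m →
      (KunnethC W X ↔ KunnethC W X')) ∧
    -- varieties which are built from pieces, up to a small closed subset
    ((∀ Z : Sch k, FT True Z → topologicalKrullDim Z.left ≤ 2 → ClassIn (kunSet W) Z) →
      ∀ (X : 𝒱.Obj) (m : ℕ), CoveredC W X.dim m →
      ∀ (Z U : Sch k) (i : Z ⟶ sch X) (j : U ⟶ sch X), IsTriple i j →
      topologicalKrullDim Z.left ≤ m → Built (kunSet W) U → KunnethC W X) :=
  ⟨partC_one hW, partC_class hW, partC_covered, partC_open hW, partC_built hW⟩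

end Pool.Agent.Results.MP_a60482_ag.ClassesKunneth
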