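import Pool.Agent.U190.AP.KuBridge

/-!
# The Künneth standard conjecture, degree by degree, for varieties generated by products of varieties
with irreducible cohomology

Let `k` be a field of any characteristic and `W` a Weil cohomology theory with any coefficient field
`K` of characteristic zero, on a class of smooth proper varieties over `k` closed under products, and
`𝒢` a set of symmetries of `W`: automorphisms of all the graded algebras `H(X)`, compatible with the
projections of products and with the spaces of algebraic classes, which multiply the orientations by
constants (for instance a Galois group).

Let `P` be a set of varieties, each of which is of one of the following types.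

* Graded type: `H(X)` is the sum of a space `A₀` spanned by algebraic classes and of its orthogonal
  complement `Q`; either `Q` is contained in the middle degree, or the Künneth projectors of `X` are
  combinations of algebraic correspondences; and for each degree `i` some correspondence `θ` (the
  identity for `i = dim X`, a power of a divisor class for `i < dim X`) defines a non-degenerate form
  `tr (x θ(y))` on `Q ∩ H^i(X)` which is good.
* Abelian type: the cohomology is that of an abelian variety with an addition and a divisor `D`,
  generated by `H^1`, with hard Lefschetz for `D`, and `H^1` is good for the form
  `tr (x D ^ (dim X - 1) y)`.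

A form on a space `P` (a part of the cohomology of `X`) is called good if

* `P` has no non-zero subspace which is stable under `𝒢` and the algebraic correspondences of degree
  zero and pairs trivially with its images under all correspondences (for example `P` is
  irreducible); or
* `P` is spanned by vanishing cycles: any two are conjugate up to sign under `𝒢`, and for each of
  them some element of `𝒢` acts on `P` by the formula of Picard and Lefschetz; or
* some `σ` in `𝒢`, a similitude with multiplier `q`, acts semisimply on `P`, and each eigenvalue `α` is
  conjugate over `K` to `q / α`; and the eigenvalues are simple, or all operators on `P` which commute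
  with `σ` are combinations of algebraic correspondences (for the Frobenius endomorphism and `H^1` of
  an abelian variety this is the theorem of Tate).

Examples for the members of `P`. (1) The geometric generic fibre of a Lefschetz pencil of hypersurface
sections of a variety with algebraic cohomology (projective spaces, Grassmannians, quadrics), over any
algebraically closed field of characteristic different from two: the vanishing cycles are conjugate and
the formula of Picard and Lefschetz holds (Deligne), for the Galois group of the function field of the
line. So `X` may be the generic hypersurface of any degree and dimension. (2) Over a finite field with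
`q` elements: all abelian varieties (Tate), K3 surfaces (the theorem of Ito, Ito and Koshikawa for the
square), and all surfaces with simple Frobenius eigenvalues on `H^1` and on the transcendental part of
`H^2`. The condition on the eigenvalues is that `α` and `q ^ i / α`, the complex conjugate of `α`, are
conjugate over `ℚ_ℓ`; for finitely many varieties it holds for a set of primes `ℓ` of positive density,
as in the theorem of Clozel for abelian varieties.

Let `𝒴` be any set of varieties for the products of which homological and numerical equivalence
coincide, for instance the empty set.

**Theorem.** (a) The following are equivalent.

1. Conjecture C holds for the members of `𝒴`.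
2. For EVERY variety `V` and all `i + i' = 2 dim V` such that `H^i(V)` and `H^{i'}(V)` are spanned by
   the images of algebraic correspondences from products, with repetitions, of members of `P` and `𝒴`,
   the Künneth projectors `π^i` and `π^{i'}` of `V` are algebraic; if some divisor on `V` has the hard
   Lefschetz property it suffices that `H^i(V)`, `i ≤ dim V`, is so spanned.

(b) If conjecture C holds for the members of `𝒴`, then it holds for every `V` with a divisor which has
the hard Lefschetz property and such that the `H^i(V)`, `i < dim V`, are so spanned.

Here algebraic is meant as in the problem: a combination of classes of algebraic cycles with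
coefficients in `K`.

So for `𝒴` empty the Künneth projectors of all the generated degrees of all varieties `V` are
algebraic; nothing is assumed on the other degrees. For the degree one this is the classical theorem
of Kleiman (`H^1(V)` comes from the Albanese variety); here the degree is arbitrary and the generators
are arbitrary products of generic hypersurfaces, abelian varieties, surfaces, .... For example let `V`
be any variety of dimension `n ≥ 4` whose third cohomology comes from cubic threefolds and curves:
then `π^3` and `π^{2n-3}` are algebraic. Or let `V ⊆ X` be a smooth complete intersection of ample
divisors in a variety `X`: all the projectors `π^i(V)`, `i < dim V`, with `H^i(X)` generated.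

## Proof

Conjecture D holds for all products of members of `P` and `𝒴` (`U190/AN/Main`, from the library
`R908`), and their Künneth projectors are algebraic. The operators of degree zero on `H(V)` which factor
through products `Z` of members of `P` and `𝒴` form a two-sided ideal `I` in the algebra of the
combinations of algebraic correspondences. If a correspondence `u` has `tr(π^i x u) = 0` for all `x` in
`I` then `u` vanishes on `H^i(V)`: for generators `φ(a)` of `H^i(V)` and `φ'(a')` of `H^{i'}(V)` the
number `tr(φ'(a') · u(φ(a)))` is given by a correspondence from `Z` to `Z'`, which is numerically
equivalent to zero, hence zero by conjecture D for `Z × Z'`. By linear algebra some `x` in `I` is the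
identity on `H^i(V)` (`exists_fac`), and `π^i = x π^i` is algebraic, because `φ ψ π^i_V = φ π^j_Z ψ`
(`proj_mem_of_generated`).
-/

set_option autoImplicit false

universe u v

namespace Pool.Agent.Results.MP_a60482_ag.GeneratedDegrees

open Pool.Agent.H914 Pool.Agent.U190.AP

/-- **The Künneth projectors of the generated degrees are algebraic.** -/
theorem result {k : Type u} [Field k] {𝒱 : VarClass k} {ops : CycleOps 𝒱}
    (W : WeilCohomology.{u, v} ops) (𝒢 : Set (Symmetry W)) (P 𝒴 : Set 𝒱.Obj)
    (hP : ∀ X ∈ P, IsBasic 𝒢 X) (h𝒴 : ∀ Y, IsProductOf 𝒴 Y → HomEqNum W Y) :
    ((∀ Y ∈ 𝒴, IsKunneth W Y) ↔
      ∀ V i i', i + i' = 2 * V.dim → ((Generated W P 𝒴 V i ∧ Generated W P 𝒴 V i') ∨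
        ∃ L, V.IsCyc 1 L ∧ HardLefschetz W V L ∧ i ≤ i' ∧ Generated W P 𝒴 V i) →
          IsKunnethIn W V i ∧ IsKunnethIn W V i') ∧
    ((∀ Y ∈ 𝒴, IsKunneth W Y) → ∀ V L, V.IsCyc 1 L → HardLefschetz W V L →
      (∀ i < V.dim, Generated W P 𝒴 V i) → IsKunneth W V) := by
  refine ⟨⟨fun hK V i i' hii h => isKunnethIn_pair hP h𝒴 hK hii h, fun h Y hY i => ?_⟩,
    fun hK V L hL hHL h => isKunneth_of_low hP h𝒴 hK hL hHL h⟩
  by_cases hi : i ≤ 2 * Y.dim
  · exact (h Y i (2 * Y.dim - i) (by omega)
      (Or.inl ⟨generated_of_mem hY i, generated_of_mem hY _⟩)).1
  · refine ⟨0, Submodule.zero_mem _, fun j a ha => ?_⟩
    split_ifs with hj
    · subst hj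
      have ha' : a ∈ W.gr Y j := ha
      rw [W.gr_eq_bot Y j (by omega), Submodule.mem_bot] at ha'
      rw [ha']
      rfl
    · rfl

end Pool.Agent.Results.MP_a60482_ag.GeneratedDegrees
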