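import Pool.Agent.U483.KS.Gen
import Pool.Agent.U483.KS.Kun

/-!
# The Künneth standard conjecture and the Grothendieck ring of varieties

`𝓜` is the category of the motives over the field `k` modulo homological equivalence for a Weil cohomology theory
with coefficients in the field `E`, where the correspondences are the `E`-linear combinations of algebraic classes.
The structures `PureMotives` and `Kunneth` list the known properties which are used; the main one is the theorem of
Gillet and Soulé (Guillén and Navarro Aznar, Bittner, Bondarko): additive functions of motives extend to
the Grothendieck group `K_0(Var_k)` of all varieties.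

* For a smooth projective `X` and `n ≠ 0` the Künneth components of `X` are algebraic if and only if
  `n [X]` is in the subgroup of `K_0(Var_k)` generated by the classes of the smooth projective varieties with
  algebraic Künneth components. If `n [X] = n [X']` then `C(X)` holds if and only if `C(X')` holds.
* Let `n [X]` be in the subring generated by the classes of all (open, singular) varieties of
  dimension at most `D` and of all smooth projective varieties with `C`. If resolution of singularities and `C`
  are known in dimension at most `D` (for instance `D = 2`) then `C(X)` holds, in arbitrary dimension.

The category `𝓜` is not semisimple. The proof uses the additive function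
`A ↦ dim Hom(A, h(X)) - dim {morphisms which factor through good motives}`.
-/

set_option autoImplicit false

open CategoryTheory CategoryTheory.Limits AlgebraicGeometry Pool.Agent.Y116.UV
  Pool.Agent.U483.KM Pool.Agent.U483.GU Pool.Agent.U483.KS

namespace Pool.Agent.Results.MP_a60482_ag.GrothendieckRing

universe w x

theorem result (k E : Type) [Field k] [Field E] (𝓜 : Type w) [Category.{x} 𝓜]
    [Preadditive 𝓜] [Linear E 𝓜] [HasBinaryBiproducts 𝓜] [HasZeroObject 𝓜]
    (H : PureMotives.{w, x} k E 𝓜) (V : ℤ → 𝓜 ⥤ ModuleCat.{0} E) [∀ i, (V i).Additive]
    (Kn : Kunneth H V) :
    -- the conjecture for `X` in terms of a multiple of the class of `X` in `K_0(Var_k)`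
    Criterion (fun X : Sch k => KunnethC V (H.h X)) ∧
    Invariance (fun X : Sch k => KunnethC V (H.h X)) ∧
    -- the subring generated by the schemes of dimension at most `D` (known for `D = 2`) and the good ones
    Generation (fun X : Sch k => KunnethC V (H.h X)) :=
  main H (thick_kunneth V) HasZeroObject.zero fun z h1 h2 h3 h4 =>
    ⟨Kn.smooth z h1 h2, kunneth_prod Kn z h1 h2 h3 h4⟩

end Pool.Agent.Results.MP_a60482_ag.GrothendieckRing
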