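import Pool.Agent.R907.KunMain

/-!
# The Künneth components: coefficients, one system for all theories, and an equality of ranks

Let `X` be a smooth projective variety of dimension `n` over an algebraically closed field of any
characteristic, `X₀` a good reduction of `X` over an algebraic closure of a finite field. The `ℓ`-adic
theories are `Pure`: by smooth and proper base change and the theorem of Deligne they have comparison
isomorphisms with a theory for `X₀` for which the Riemann hypothesis is true. This is used as a
property of the theory; no other property is assumed, neither hard Lefschetz nor any
conjecture.

Let `W` be ONE such theory, with coefficient field `K`. Let `P_i` be the projector of `H(X)` onto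
`H^i(X)`. We prove that the following are equivalent.

1. There is ONE system of cycles `Δ_i` with RATIONAL coefficients on `X × X`, `0 ≤ i ≤ 2n`, which induce the
   projectors onto `H^i(X)` for ALL pure theories (for all prime numbers `ℓ` together).
2. For the one theory `W` the Künneth components are linear combinations of classes of cycles with
   coefficients in `K`.
3. The rank of the group of cycles of codimension `n` on `X × X` modulo numerical equivalence is the
   sum over `i` of the ranks of the forms `(a, b) ↦ Tr(a b | H^i(X))` on the algebraic correspondences of
   degree zero.

The inequality `≤` in 3 is true for all `X` and all Weil cohomology theories.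

So the conjecture `C(X)` with coefficients in `K = ℚ_ℓ` for one `ℓ` (this is the form in which the problem
is posed) implies the strongest form: rational cycles, the same for all `ℓ`; and it is equivalent to one
equality between integers. Compare `MP_a60482_ag.WeightMoment` and `MP_a60482_ag.PointwiseProjectors`.
Over a finite field itself `C(X)` is known (Katz and Messing), since there the Frobenius
endomorphism is an algebraic correspondence; the Frobenius endomorphism of `X₀` is not the
specialisation of a correspondence of `X` in general.

Proof. By purity the traces `Tr(y | H^i(X))` of algebraic correspondences are rational numbers
independent of the theory. If `a` is a `K`-combination with the trace properties of the projector, a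
`ℚ`-linear retraction `K → ℚ` gives a rational cycle with the same traces, which acts on `H^j(X)`, for all
pure theories, as the identity (`j = i`) or zero (`j ≠ i`) up to nilpotent operators; a
polynomial in it with rational coefficients is the projector. For 3: the form
`(a, b) ↦ ∑_i (-1)^i Tr(a b | H^i(X))` is the intersection form, and the sum of the ranks of the summands is
equal to the rank of the sum if and only if the operators act independently on the different
degrees, up to elements of the radicals of the forms.

The theorem is assembled from the file `R907/KunMain` of the starting library, whose theorems
`kunneth_tfae` and `numCorrRank_le` had not been handed in.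
-/

set_option autoImplicit false

universe u₁ v₁ u v

namespace Pool.Agent.Results.MP_a60482_ag.KunnethRanks

open Pool.Agent.H914 Pool.Agent.Y106.One Pool.Agent.R907

/-- **The Künneth components in terms of ranks.** -/
theorem result {k : Type u} [Field k] {𝒱 : VarClass k} {ops : CycleOps 𝒱}
    (W : WeilCohomology.{u, v} ops) (X : 𝒱.Obj) (P : ℕ → Module.End W.K (W.H X))
    (hP : ∀ i, IsProjector (W.gr X) i (P i)) :
    numCorrRank ops X ≤ ∑ i ∈ Finset.range (2 * X.dim + 1), formRank (P i) (corrOps W X) ∧
    ∀ {k₀ : Type u₁} [Field k₀] {𝒱₀ : VarClass k₀} (ops₀ : CycleOps 𝒱₀) (R : Reduction X 𝒱₀),
      Reduction.Pure.{u₁, v₁} R ops₀ W →
        List.TFAE [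
          OneKunnethSystem.{u, v} (ops := ops) (Reduction.Pure.{u₁, v₁} R ops₀) X,
          KunnethOverK W X,
          numCorrRank ops X =
            ∑ i ∈ Finset.range (2 * X.dim + 1), formRank (P i) (corrOps W X)] :=
  ⟨numCorrRank_le P hP, fun _ R hW => kunneth_tfae R hW P hP⟩

end Pool.Agent.Results.MP_a60482_ag.KunnethRanks
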